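import Pool.Agent.Helper4.CD.St

/-!
# Project CD (MP_a41ee4_co), module CL: removing idle steps of a lazy walk
-/

set_option autoImplicit false

namespace Pool.Agent.Helper96.CD

open Pool.Agent.Helper4.CD
open Module

section
variable {K : Type} [Field K] [LinearOrder K] [IsStrictOrderedRing K] {V : Type} [AddCommGroup V]
  [Module K V] {κ : Type}

/-- put `a` in front of the sequence `f` -/
private def cons' {A : Type} (a : A) (f : ℕ → A) : ℕ → A
  | 0 => a
  | n + 1 => f n

private theorem shift {c : κ → Dual K V} {r : κ → K} {n : ℕ} {act : ℕ → Prop} {z g : ℕ → V}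
    {h : ℕ → κ} (H : Lazy c r (n + 1) act z g h) :
    Lazy c r n (fun i => act (i + 1)) (fun i => z (i + 1)) (fun i => g (i + 1))
      (fun i => h (i + 1)) where
  poly i hi := H.poly (i + 1) (Nat.succ_le_succ hi)
  idle i hi ha := H.idle (i + 1) (Nat.succ_lt_succ hi) ha
  circ i hi ha := H.circ (i + 1) (Nat.succ_lt_succ hi) ha
  neg i hi ha := H.neg (i + 1) (Nat.succ_lt_succ hi) ha
  hit i hi ha := H.hit (i + 1) (Nat.succ_lt_succ hi) ha
  step i hi ha := H.step (i + 1) (Nat.succ_lt_succ hi) ha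

/-- the conclusion of the induction -/
private def Good (c : κ → Dual K V) (r : κ → K) (n : ℕ) (act : ℕ → Prop) (z g : ℕ → V)
    (h : ℕ → κ) (m : ℕ) (z' : ℕ → V) (h' : ℕ → κ) : Prop :=
  z' 0 = z 0 ∧ z' m = z n ∧ (∀ i < m, Step c r (z' i) (z' (i + 1))) ∧
    (∀ k, (∀ l < n, act l → c k (g l) = 0) → ∀ l ≤ m, c k (z' l) = c k (z 0)) ∧
    ((∀ i l, i < l → l < n → act i → act l → c (h i) (g l) = 0) → ∀ i < m,
      r (h' i) < c (h' i) (z' i) ∧ ∀ l, i < l → l ≤ m → c (h' i) (z' l) = r (h' i))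

/-- the first step does not move -/
private theorem good_same {c : κ → Dual K V} {r : κ → K} {n m : ℕ} {act : ℕ → Prop}
    {z g z' : ℕ → V} {h h' : ℕ → κ} (h0 : z 1 = z 0)
    (G : Good c r n (fun i => act (i + 1)) (fun i => z (i + 1)) (fun i => g (i + 1))
      (fun i => h (i + 1)) m z' h') : Good c r (n + 1) act z g h m z' h' := by
  obtain ⟨g1, g2, g3, g4, g5⟩ := G
  refine ⟨g1.trans h0, g2, g3, fun k hk l hl => ?_, fun hb => ?_⟩
  · have := g4 k (fun l hl ha => hk (l + 1) (Nat.succ_lt_succ hl) ha) l hl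
    rw [this]
    exact congrArg (c k) h0
  · exact g5 fun i l hil hl hi hal =>
      hb (i + 1) (l + 1) (Nat.succ_lt_succ hil) (Nat.succ_lt_succ hl) hi hal

/-- the first step moves -/
private theorem good_cons {c : κ → Dual K V} {r : κ → K} {n m : ℕ} {act : ℕ → Prop}
    {z g z' : ℕ → V} {h h' : ℕ → κ} (H : Lazy c r (n + 1) act z g h) (ha : act 0) {α : K}
    (hα : 0 < α) (h0 : z 1 = z 0 + α • g 0)
    (G : Good c r n (fun i => act (i + 1)) (fun i => z (i + 1)) (fun i => g (i + 1))
      (fun i => h (i + 1)) m z' h') :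
    Good c r (n + 1) act z g h (m + 1) (cons' (z 0) z') (cons' (h 0) h') := by
  obtain ⟨g1, g2, g3, g4, g5⟩ := G
  have hneg := H.neg 0 (Nat.succ_pos n) ha
  have hhit : c (h 0) (z 1) = r (h 0) := H.hit 0 (Nat.succ_pos n) ha
  have hc0 : c (h 0) (z 1) = c (h 0) (z 0) + α * c (h 0) (g 0) := by
    rw [h0, map_add, map_smul, smul_eq_mul]
  refine ⟨rfl, g2, fun i hi => ?_, fun k hk l hl => ?_, fun hb i hi => ?_⟩
  · rcases i with _ | i
    · show Step c r (z 0) (z' 0)
      rw [g1]
      refine ⟨g 0, α, H.circ 0 (Nat.succ_pos n) ha, hα, h0, H.poly 1 (by lia), ?_⟩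
      intro β hβ hP
      have h1 := hP (h 0)
      have h2 : c (h 0) (z 0 + β • g 0) = c (h 0) (z 0) + β * c (h 0) (g 0) := by
        rw [map_add, map_smul, smul_eq_mul]
      rw [h2, ← hhit, hc0] at h1
      have h3 : β * c (h 0) (g 0) < α * c (h 0) (g 0) := mul_lt_mul_of_neg_right hβ hneg
      exact absurd (le_of_add_le_add_left h1) (not_le.2 h3)
    · exact g3 i (Nat.lt_of_succ_lt_succ hi)
  · rcases l with _ | l
    · rfl
    · show c k (z' l) = c k (z 0)
      have h1 := g4 k (fun l hl ha => hk (l + 1) (Nat.succ_lt_succ hl) ha) l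
        (Nat.le_of_succ_le_succ hl)
      have h2 : c k (z 1) = c k (z 0) := by
        rw [h0, map_add, map_smul, hk 0 (Nat.succ_pos n) ha, smul_zero, add_zero]
      exact h1.trans h2
  · rcases i with _ | i
    · refine ⟨?_, fun l hl1 hl2 => ?_⟩
      · show r (h 0) < c (h 0) (z 0)
        rw [← hhit, hc0]
        have := mul_neg_of_pos_of_neg hα hneg
        linarith
      · rcases l with _ | l
        · exact absurd hl1 (lt_irrefl _)
        · show c (h 0) (z' l) = r (h 0)
          have h1 := g4 (h 0) (fun l hl ha' =>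
            hb 0 (l + 1) (Nat.succ_pos l) (Nat.succ_lt_succ hl) ha ha') l
            (Nat.le_of_succ_le_succ hl2)
          exact h1.trans hhit
    · have h1 := g5 (fun i l hil hl hi hal =>
        hb (i + 1) (l + 1) (Nat.succ_lt_succ hil) (Nat.succ_lt_succ hl) hi hal) i
        (Nat.lt_of_succ_lt_succ hi)
      refine ⟨h1.1, fun l hl1 hl2 => ?_⟩
      rcases l with _ | l
      · exact absurd hl1 (Nat.not_lt_zero _)
      · exact h1.2 l (Nat.lt_of_succ_lt_succ hl1) (Nat.le_of_succ_le_succ hl2)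

open Classical in
private theorem main (c : κ → Dual K V) (r : κ → K) (n : ℕ) : ∀ (act : ℕ → Prop) (z g : ℕ → V)
    (h : ℕ → κ), Lazy c r n act z g h →
    ∃ m ≤ Nat.count act n, ∃ (z' : ℕ → V) (h' : ℕ → κ), Good c r n act z g h m z' h' := by
  induction n with
  | zero =>
    intro act z g h _
    refine ⟨0, Nat.zero_le _, z, h, rfl, rfl, fun i hi => absurd hi (Nat.not_lt_zero i),
      fun k _ l hl => ?_, fun _ i hi => absurd hi (Nat.not_lt_zero i)⟩
    rw [Nat.le_zero.1 hl]
  | succ n ih =>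
    intro act z g h H
    obtain ⟨m, hm, z', h', G⟩ := ih _ _ _ _ (shift H)
    have hcount := Nat.count_succ' act n
    by_cases ha : act 0
    · obtain ⟨α, hα, h0⟩ := H.step 0 (Nat.succ_pos n) ha
      rw [if_pos ha] at hcount
      rcases hα.eq_or_lt with h1 | h1
      · refine ⟨m, by lia, z', h', good_same ?_ G⟩
        rw [h0, ← h1, zero_smul, add_zero]
      · exact ⟨m + 1, by lia, _, _, good_cons H ha h1 h0 G⟩
    · rw [if_neg ha] at hcount
      exact ⟨m, by lia, z', h', good_same (H.idle 0 (Nat.succ_pos n) ha) G⟩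

end

open Classical in
theorem hCL : StCL := by
  intro K _ _ _ V _ _ κ c r n act z g h H
  obtain ⟨m, hm, z', h', g1, g2, g3, g4, g5⟩ := main c r n act z g h H
  have hcard : Nat.card {i : ℕ // i < n ∧ act i} = Nat.count act n := by
    rw [Nat.count_eq_card_filter_range]
    exact Nat.subtype_card _ fun i => by simp
  have hP : z 0 ∈ Poly c r := H.poly 0 (Nat.zero_le n)
  refine ⟨m, hcard ▸ hm, ⟨z', g1, g2, hP, g3⟩, fun hb => ?_⟩
  exact ⟨z', fun i => h' i, g1, g2, hP, fun i => ⟨g3 i i.2, (g5 hb i i.2).1, (g5 hb i i.2).2⟩⟩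

end Pool.Agent.Helper96.CD
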